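import Mathlib
import Pool.Agent.N718.DC.Stm2
import Pool.Agent.N907.DC.Cls
import Pool.Agent.U424.DQ.Stm

/-!
Part CLSG of project DQ: rational points for almost all families in a residue class (general type).
Adapted from `Pool.Agent.N907.DC.Cls`.
-/

set_option autoImplicit false

namespace Pool.Agent.U465.DQ

open Finset Pool.Agent.N718.DC Pool.Agent.U424.DQ Pool.Agent.N907.DC
open Pool.Agent.N546.PN (Typ)

theorem clsg_ (h1 : S_AMTG) : S_CLSG := by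
  classical
  intro ι _ _ N φ e T hAri
  obtain ⟨C, hC, hmain⟩ := h1 ι N φ e
  refine ⟨C, hC, ?_⟩
  intro W M hW hM h2M hWM hMW a₀ a₁ α β hαβ γ s hs hv hps
  have hpart := fun k => gcd_part (M := M) hM (f := fm (γ k) a₀ a₁)
    (fun p hp hpM => ⟨(hv p hp hpM).1, (hv p hp hpM).2 k⟩)
  obtain ⟨ε, hε, hεF⟩ := hAri M (fun k => fm (γ k) a₀ a₁) (fun k => Int.gcd (fm (γ k) a₀ a₁) M) s hM h2M
    (fun k => (hpart k).1) (fun k => (hpart k).2) hs (by
      intro p _ hpM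
      have h3 := (hps p hpM).2
      simp only [cast_fm]
      exact h3)
  obtain ⟨H₀, hH₀⟩ := hmain W M hW hM h2M hWM hMW a₀ a₁ α β hαβ γ
    (fun k => Int.gcd (fm (γ k) a₀ a₁) M) s ε hs.1 hε
    (fun k => ⟨(hpart k).1.1, fun p hp hpM =>
      (dvd_pow_self p three_ne_zero).trans ((hpart k).1.2 p hp hpM)⟩)
    (fun k => (hpart k).2)
  refine ⟨H₀, fun H hH => le_trans ?_ (hH₀ H hH)⟩
  have hsub := Finset.monotone_filter_right (BXI e H)
    (p := fun c => (∀ k j, (M : ℤ) ∣ c k j - γ k j) ∧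
      (∀ k, ∀ z : ℝ, α < z → z < β → 0 < (s k : ℝ) * fmv (c k) 1 z) ∧
      ¬ ∃ x y : ℤ, 0 < x ∧ (M : ℤ) ∣ x - a₀ ∧ (M : ℤ) ∣ y - a₁ ∧ α * x < y ∧ (y : ℝ) < β * x ∧
        PSG T c (x : ℚ) (y : ℚ))
    (q := fun c => (∀ k j, (M : ℤ) ∣ c k j - γ k j) ∧
      (∀ k, ∀ z : ℝ, α < z → z < β → 0 < (s k : ℝ) * fmv (c k) 1 z) ∧
      ¬ ∃ x y : ℤ, 0 < x ∧ (M : ℤ) ∣ x - a₀ ∧ (M : ℤ) ∣ y - a₁ ∧ α * x < y ∧ (y : ℝ) < β * x ∧
        ∃ P : ι → ℕ, (∀ k, (P k).Prime ∧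
          s k * fm (c k) x y = (Int.gcd (fm (γ k) a₀ a₁) M : ℕ) * P k) ∧
          ∀ k k', φ k < φ k' → jacobiSym (P k) (P k') = ε k k') (by
      rintro c - ⟨hc1, hc2, hc3⟩
      refine ⟨hc1, hc2, ?_⟩
      rintro ⟨x, y, hx, hxa, hya, hαx, hβx, P, hP, hPε⟩
      apply hc3
      refine ⟨x, y, hx, hxa, hya, hαx, hβx, ?_, ?_⟩
      · intro k
        rw [← cast_fm]
        intro h0
        have h0' : fm (c k) x y = 0 := by exact_mod_cast h0
        have h4 := (hP k).2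
        rw [h0', mul_zero] at h4
        have h5 : ((Int.gcd (fm (γ k) a₀ a₁) M : ℕ) : ℤ) ≠ 0 := by
          intro h6
          have h7 := (hpart k).1.1
          have h8 : Int.gcd (fm (γ k) a₀ a₁) M = 0 := by exact_mod_cast h6
          rw [h8, zero_dvd_iff] at h7
          omega
        have h6 : ((P k : ℕ) : ℤ) ≠ 0 := by exact_mod_cast (hP k).1.ne_zero
        exact (mul_ne_zero h5 h6) h4.symm
      · have h4 := hεF (fun k => fm (c k) x y)
          (fun k => fm_dvd (hc1 k) hxa hya) P hP hPε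
        simp only [cast_fm] at h4
        exact h4)
  exact_mod_cast Finset.card_le_card hsub

end Pool.Agent.U465.DQ
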